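import Pool.Agent.H376R2.MR.Defs

/-!
Project AD (helper957, MP_3e612f_nt): the Moebius function is orthogonal to `n ↦ A (α n)` for almost every
dilation `α > 0`, for every bounded `A` of polynomially bounded variation (for example `A x = a ⌊x⌋` for an
arbitrary bounded sequence `a`), at almost all scales in the Cesàro sense, hence in the logarithmic sense.

Definitions and statements of the steps.
-/

set_option autoImplicit false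

namespace Pool.Agent.Y957.AD

open Finset MeasureTheory Filter
open Pool.Agent.H376R2.MR (er cell PP mm nint WW)

/-- the Moebius function with complex values -/
noncomputable def mu (n : ℕ) : ℂ := ((ArithmeticFunction.moebius n : ℤ) : ℂ)

/-- the primes `p` with `a ≤ log p < b` -/
noncomputable def PS (a b : ℝ) : Finset ℕ :=
  (range (⌊Real.exp b⌋₊ + 1)).filter (fun p => p.Prime ∧ a ≤ Real.log p ∧ Real.log p < b)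

/-- `∑_{p ∈ P} 1/p` -/
noncomputable def WP (P : Finset ℕ) : ℝ := ∑ p ∈ P, 1 / (p : ℝ)

/-- `∑_{p ∈ P} p^{-1+it}` -/
noncomputable def ZP (P : Finset ℕ) (t : ℝ) : ℂ := ∑ p ∈ P, er t (Real.log p) / (p : ℂ)

/-- (1) sums of `n^{-1+iτ}` over multiples of `q` in a cell of length one, uniformly in the order `Q` of the
derivative test -/
def S_PROG : Prop := ∃ C : ℝ, 0 < C ∧ ∀ (Q v q : ℕ) (τ : ℝ), 1 ≤ Q → 1 ≤ v →
    (4 * (Q.factorial : ℝ)) ^ 2 ≤ Real.exp (3 / 4 * v) → 1 ≤ q → (q : ℝ) ≤ Real.exp ((v : ℝ) / 4) →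
    |τ| ≤ Real.exp (3 / 4 * Q * v) →
    ‖(∑ n ∈ (nint 1 v).filter (fun n => q ∣ n), er τ (Real.log n) / (n : ℂ)) -
      (1 / (q : ℂ)) * ∫ s in (v : ℝ)..((v : ℝ) + 1), er τ s‖ ≤
      C * Real.exp (-(3 / 4 * v / (4 * Q * 2 ^ Q))) / q

/-- (2) few separated large values of `∑ p^{-1+it}` -/
def S_CNT : Prop := ∀ θ : ℝ, 0 < θ → θ ≤ 1 → ∃ (K R a₀ : ℕ) (W₀ : ℝ), 1 ≤ K ∧ ∀ Q a b : ℕ, 1 ≤ Q → a₀ ≤ a →
    a ≤ b → (4 * (Q.factorial : ℝ)) ^ 2 ≤ Real.exp (3 / 4 * a) →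
    (1 + (b : ℝ)) ^ 5 * Real.exp (-(3 / 4 * a / (4 * Q * 2 ^ Q))) ≤ 1 → W₀ ≤ WP (PS a b) →
    ∀ T : Finset ℝ, (∀ t ∈ T, ∀ t' ∈ T, t ≠ t' → (K : ℝ) ≤ |t - t'|) →
      (∀ t ∈ T, |t| ≤ Real.exp (3 / 4 * Q * a) / 2) →
      (∀ t ∈ T, θ * WP (PS a b) ≤ ‖ZP (PS a b) t‖) → T.card ≤ R

/-- (3) low frequencies -/
def S_LOW : Prop := ∀ T₀ θ : ℝ, 0 < θ → ∃ (a₀ : ℕ) (C : ℝ), ∀ a b : ℕ, a₀ ≤ a → a ≤ b → ∀ t : ℝ, |t| ≤ T₀ →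
    -(θ * WP (PS a b)) - C ≤ (ZP (PS a b) t).re

/-- (4) upper bound sieve -/
def S_SV : Prop := ∃ C : ℝ, 0 < C ∧ ∀ (a b : ℕ) (N : ℝ), 1 ≤ a → a ≤ b → Real.exp b ≤ N →
    ((((Icc 1 ⌊N⌋₊).filter (fun m => ∀ p ∈ PS a b, ¬ p ∣ m)).card : ℕ) : ℝ) ≤
      C * N * Real.exp (-WP (PS a b))

/-- window functions: bounded by `e^{r-w}` for `r ≤ w`, zero beyond `w`, with a modulus of continuity in `L¹` -/
structure Win (F : ℝ → ℂ) (w B : ℝ) : Prop where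
  meas : Measurable F
  le : ∀ r, r ≤ w → ‖F r‖ ≤ Real.exp (r - w)
  zero : ∀ r, w < r → F r = 0
  var : ∀ s, 0 ≤ s → s ≤ 1 → ∫ r, ‖F (r + s) - F r‖ ≤ B * s

/-- `G_h(u) = ∑_{n ≤ e^w} h(n)/n F(u + log n)` -/
noncomputable def GG (h : ℕ → ℂ) (F : ℝ → ℂ) (w u : ℝ) : ℂ :=
  ∑ n ∈ Icc 1 ⌊Real.exp w⌋₊, h n / (n : ℂ) * F (u + Real.log n)

/-- (5) Turán–Kubilius -/
def S_TK : Prop := ∃ C : ℝ, 0 < C ∧ ∀ (F : ℝ → ℂ) (w B : ℝ), Win F w B → ∀ (P : Finset ℕ) (Q : ℝ),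
    (∀ p ∈ P, p.Prime ∧ (p : ℝ) ≤ Q) → 1 ≤ WP P → ∀ u : ℝ, 0 ≤ u → 1 ≤ Q → Q ^ 2 ≤ Real.exp (w - u) →
    ‖GG mu F w u + ((1 / WP P : ℝ) : ℂ) * ∑ p ∈ P, (1 / (p : ℂ)) * GG mu F w (u + Real.log p)‖ ≤
      C / Real.sqrt (WP P)

/-- the averaging operator over the primes of `P` -/
noncomputable def KO (P : Finset ℕ) (F : ℝ → ℂ) (x : ℝ) : ℂ :=
  -(((1 / WP P : ℝ) : ℂ) * ∑ p ∈ P, (1 / (p : ℂ)) * F (x + Real.log p))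

/-- (7) iterates of the averaging operator on modulated kernels -/
def S_KER : Prop := ∀ (H v₁ v₂ : ℕ) (k : ℤ) (c A B : ℝ) (κ : ℝ → ℂ) (P : Finset ℕ), 1 ≤ H →
    P = (Ico v₁ v₂).biUnion (cell H) → 0 < WP P → 0 < c → c ≤ 1 →
    (∀ v ∈ Ico v₁ v₂, ‖PP H v k‖ ≤ (1 - c) * mm H v) → Integrable κ → Continuous κ → ∫ x, ‖κ x‖ ≤ A →
    0 ≤ B → (∀ s, 0 ≤ s → s ≤ 1 → ∫ x, ‖κ (x + s) - κ x‖ ≤ B * s) → ∀ J : ℕ,
    Integrable ((KO P)^[J] (fun x => er k x * κ x)) ∧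
    ∫ x, ‖(KO P)^[J] (fun x => er k x * κ x) x‖ ≤ (1 - c) ^ J * A + B / (c * H)

/-- the core estimate -/
def S_CORE : Prop := ∀ D ε : ℝ, 0 < D → 0 < ε → ∃ C w₀ : ℝ, ∀ w : ℝ, w₀ ≤ w → ∀ F : ℝ → ℂ,
    Win F w (Real.exp (D * w)) →
    volume {u : ℝ | u ∈ Set.Icc (0 : ℝ) 1 ∧ ε < ‖GG mu F w u‖} ≤
      ENNReal.ofReal (C * (Real.log w) ^ (-(11 / 10 : ℝ)))

/-- the Cesàro average of `μ(n) A(α n)` -/
noncomputable def SA (A : ℝ → ℂ) (α : ℝ) (N : ℕ) : ℂ :=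
  (1 / (N : ℂ)) * ∑ n ∈ Icc 1 N, mu n * A (α * n)

/-- the logarithmic average of the absolute values of the Cesàro averages tends to `0` -/
def AlmostScales (A : ℝ → ℂ) (α : ℝ) : Prop :=
  Tendsto (fun X : ℕ => (1 / Real.log X) * ∑ N ∈ Icc 1 X, ‖SA A α N‖ / N) atTop (nhds 0)

/-- logarithmic averages -/
def LogAv (A : ℝ → ℂ) (α : ℝ) : Prop :=
  Tendsto (fun X : ℕ => (1 / (Real.log X : ℂ)) * ∑ n ∈ Icc 1 X, mu n * A (α * n) / n) atTop (nhds 0)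

/-- polynomially bounded variation -/
def PolyVar (A : ℝ → ℂ) : Prop := ∃ C D : ℝ, 0 < D ∧ ∀ X : ℝ, 1 ≤ X →
  eVariationOn A (Set.Icc 0 X) ≤ ENNReal.ofReal (C * X ^ D)

/-- (10) the almost everywhere statement -/
def S_AE : Prop := ∀ A : ℝ → ℂ, (∀ x, ‖A x‖ ≤ 1) → Measurable A → PolyVar A →
  ∀ᵐ α ∂(volume.restrict (Set.Ioi (0 : ℝ))), AlmostScales A α

end Pool.Agent.Y957.AD
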