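import Pool.Agent.Y957.AD.Spec
import Pool.Agent.H376R2.MR.Mert

set_option autoImplicit false

namespace Pool.Agent.Y957.AD

open Finset MeasureTheory Filter
open Pool.Agent.H376R2.MR (er cell PP mm nint WW WW_bound)

theorem er_norm (τ x : ℝ) : ‖er τ x‖ = 1 := by
  unfold er
  exact Complex.norm_exp_ofReal_mul_I _

theorem er_add (τ x y : ℝ) : er τ (x + y) = er τ x * er τ y := by
  unfold er
  rw [← Complex.exp_add]
  congr 1
  push_cast
  ring

theorem er_zero (x : ℝ) : er 0 x = 1 := by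
  unfold er; simp

theorem mem_PS {a b : ℝ} {p : ℕ} : p ∈ PS a b ↔ p.Prime ∧ a ≤ Real.log p ∧ Real.log p < b := by
  unfold PS
  rw [mem_filter, mem_range]
  constructor
  · exact fun h => h.2
  · intro h
    refine ⟨?_, h⟩
    have hp : (0 : ℝ) < p := by exact_mod_cast h.1.pos
    have : (p : ℝ) ≤ Real.exp b := ((Real.log_lt_iff_lt_exp hp).1 h.2.2).le
    exact Nat.lt_succ_of_le (Nat.le_floor this)

theorem mem_cell {H v p : ℕ} : p ∈ cell H v ↔
    p.Prime ∧ (v : ℝ) / H ≤ Real.log p ∧ Real.log p < ((v : ℝ) + 1) / H := by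
  unfold cell
  rw [mem_filter, mem_range]
  constructor
  · exact fun h => h.2
  · intro h
    refine ⟨?_, h⟩
    have hp : (0 : ℝ) < p := by exact_mod_cast h.1.pos
    have : (p : ℝ) ≤ Real.exp (((v : ℝ) + 1) / H) := ((Real.log_lt_iff_lt_exp hp).1 h.2.2).le
    exact Nat.lt_succ_of_le (Nat.le_floor this)

theorem cell_disj {H v v' : ℕ} (hH : 1 ≤ H) (h : v ≠ v') : Disjoint (cell H v) (cell H v') := by
  have hH' : (0 : ℝ) < H := by exact_mod_cast hH
  rw [Finset.disjoint_left]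
  intro p hp hp'
  rw [mem_cell] at hp hp'
  have h1 : (v : ℝ) / H < ((v' : ℝ) + 1) / H := lt_of_le_of_lt hp.2.1 hp'.2.2
  have h2 : (v' : ℝ) / H < ((v : ℝ) + 1) / H := lt_of_le_of_lt hp'.2.1 hp.2.2
  rw [div_lt_div_iff_of_pos_right hH'] at h1 h2
  have h3 : v < v' + 1 := by exact_mod_cast h1
  have h4 : v' < v + 1 := by exact_mod_cast h2
  omega

theorem cell_pairwise (H : ℕ) (hH : 1 ≤ H) (s : Finset ℕ) :
    (s : Set ℕ).PairwiseDisjoint (cell H) := fun _ _ _ _ h => cell_disj hH h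

/-- `PS a b` is a union of cells -/
theorem PS_cells (H a b : ℕ) (hH : 1 ≤ H) :
    PS a b = (Ico (a * H) (b * H)).biUnion (cell H) := by
  have hH' : (0 : ℝ) < H := by exact_mod_cast hH
  ext p
  rw [mem_PS, mem_biUnion]
  constructor
  · rintro ⟨h1, h2, h3⟩
    have hl : 0 ≤ Real.log p := le_trans (Nat.cast_nonneg a) h2
    refine ⟨⌊H * Real.log p⌋₊, ?_, ?_⟩
    · rw [mem_Ico]
      constructor
      · apply Nat.le_floor
        push_cast
        nlinarith
      · rw [Nat.floor_lt (by positivity)]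
        push_cast
        nlinarith
    · rw [mem_cell]
      have e1 := Nat.floor_le (show (0 : ℝ) ≤ H * Real.log p by positivity)
      have e2 := Nat.lt_floor_add_one ((H : ℝ) * Real.log p)
      refine ⟨h1, ?_, ?_⟩
      · rw [div_le_iff₀ hH']; linarith
      · rw [lt_div_iff₀ hH']; linarith
  · rintro ⟨v, hv, hp⟩
    rw [mem_Ico] at hv
    rw [mem_cell] at hp
    refine ⟨hp.1, le_trans ?_ hp.2.1, lt_of_lt_of_le hp.2.2 ?_⟩
    · rw [le_div_iff₀ hH']
      exact_mod_cast hv.1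
    · rw [div_le_iff₀ hH']
      have : v + 1 ≤ b * H := hv.2
      exact_mod_cast this

theorem sum_PS_cells {M : Type*} [AddCommMonoid M] (f : ℕ → M) (H a b : ℕ) (hH : 1 ≤ H) :
    ∑ p ∈ PS a b, f p = ∑ v ∈ Ico (a * H) (b * H), ∑ p ∈ cell H v, f p := by
  rw [PS_cells H a b hH, sum_biUnion (cell_pairwise H hH _)]

theorem WP_cells (H a b : ℕ) (hH : 1 ≤ H) : WP (PS a b) = WW H (a * H) (b * H) := by
  unfold WP WW
  rw [sum_PS_cells _ H a b hH]
  rfl

theorem ZP_cells (H a b : ℕ) (hH : 1 ≤ H) (t : ℝ) :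
    ZP (PS a b) t = ∑ v ∈ Ico (a * H) (b * H), ∑ p ∈ cell H v, er t (Real.log p) / (p : ℂ) := by
  unfold ZP
  rw [sum_PS_cells _ H a b hH]

theorem WP_nonneg (P : Finset ℕ) : 0 ≤ WP P := by
  unfold WP
  exact sum_nonneg fun _ _ => by positivity

theorem ZP_norm_le (P : Finset ℕ) (t : ℝ) : ‖ZP P t‖ ≤ WP P := by
  unfold ZP WP
  refine (norm_sum_le _ _).trans (sum_le_sum fun p _ => ?_)
  rw [norm_div, er_norm, Complex.norm_natCast]

/-- Mertens -/
theorem WP_bound : ∃ C : ℝ, 0 < C ∧ ∀ a b : ℕ, 1 ≤ a → a ≤ b →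
    |WP (PS a b) - Real.log ((b : ℝ) / a)| ≤ C := by
  obtain ⟨C, hC, h⟩ := WW_bound
  refine ⟨C, hC, fun a b ha hab => ?_⟩
  rw [WP_cells 1 a b le_rfl]
  have := h 1 (a * 1) (b * 1) le_rfl (by omega) (by omega)
  simpa using this

end Pool.Agent.Y957.AD
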