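import Pool.Agent.Y957.AD.Basic

/-!
Project AD: the exact factorisation of the window sums over a set of primes.
-/

set_option autoImplicit false

namespace Pool.Agent.Y957.AD

open Finset MeasureTheory Filter
open Pool.Agent.H376R2.MR (er cell PP mm nint WW WW_bound)

/-- `μ` restricted to integers free of prime factors in `P` -/
noncomputable def muc (P : Finset ℕ) (n : ℕ) : ℂ := if ∀ p ∈ P, ¬ p ∣ n then mu n else 0

/-- logarithm of the product of the elements of `S` -/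
noncomputable def ls (S : Finset ℕ) : ℝ := ∑ p ∈ S, Real.log p

/-- the operator `∏_{p ∈ P} (1 - p^{-1} τ_{log p})` -/
noncomputable def BO (P : Finset ℕ) (F : ℝ → ℂ) (x : ℝ) : ℂ :=
  ∑ S ∈ P.powerset, (∏ p ∈ S, (-(1 / (p : ℂ)))) * F (x + ls S)

theorem BO_empty (F : ℝ → ℂ) (x : ℝ) : BO ∅ F x = F x := by
  simp [BO, ls]

theorem BO_insert {P : Finset ℕ} {p : ℕ} (hp : p ∉ P) (F : ℝ → ℂ) (x : ℝ) :
    BO (insert p P) F x = BO P F x - (1 / (p : ℂ)) * BO P F (x + Real.log p) := by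
  unfold BO
  rw [sum_powerset_insert hp, sub_eq_add_neg, mul_sum, ← sum_neg_distrib]
  congr 1
  refine sum_congr rfl fun S hS => ?_
  have hpS : p ∉ S := fun h => hp (mem_powerset.1 hS h)
  unfold ls
  rw [prod_insert hpS, sum_insert hpS, ← add_assoc]
  ring

theorem BO_sub (P : Finset ℕ) (F G : ℝ → ℂ) (c : ℂ) (s x : ℝ) :
    BO P (fun y => F y - c * G (y + s)) x = BO P F x - c * BO P G (x + s) := by
  unfold BO
  rw [mul_sum, ← sum_sub_distrib]
  refine sum_congr rfl fun S _ => ?_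
  have : x + ls S + s = x + s + ls S := by ring
  simp only [this]
  ring

theorem mu_mul_prime {p m : ℕ} (hp : p.Prime) (hm : ¬ p ∣ m) : mu (p * m) = - mu m := by
  unfold mu
  have hc : Nat.Coprime p m := (Nat.Prime.coprime_iff_not_dvd hp).2 hm
  rw [ArithmeticFunction.isMultiplicative_moebius.map_mul_of_coprime hc,
    ArithmeticFunction.moebius_apply_prime hp]
  push_cast
  ring

theorem mu_mul_prime_dvd {p m : ℕ} (hp : p.Prime) (hm : p ∣ m) : mu (p * m) = 0 := by
  unfold mu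
  have : ¬ Squarefree (p * m) := by
    intro h
    obtain ⟨k, rfl⟩ := hm
    have h2 := h p ⟨k, by ring⟩
    exact hp.one_lt.ne' (Nat.isUnit_iff.1 h2)
  rw [ArithmeticFunction.moebius_eq_zero_of_not_squarefree this]
  simp

theorem mu_norm_le (n : ℕ) : ‖mu n‖ ≤ 1 := by
  unfold mu
  rw [Complex.norm_intCast]
  have := ArithmeticFunction.abs_moebius_le_one (n := n)
  exact_mod_cast this

theorem muc_norm_le (P : Finset ℕ) (n : ℕ) : ‖muc P n‖ ≤ 1 := by
  unfold muc
  split_ifs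
  · exact mu_norm_le n
  · simp

/-- one step of the factorisation -/
theorem GG_step {P : Finset ℕ} {p : ℕ} (hp : p.Prime) (hPp : ∀ q ∈ P, q.Prime) (hpP : p ∉ P)
    {F : ℝ → ℂ} {w : ℝ} (hF : ∀ r, w < r → F r = 0) {u : ℝ} (hu : 0 ≤ u) :
    GG (muc P) F w u = GG (muc (insert p P)) F w u -
      (1 / (p : ℂ)) * GG (muc (insert p P)) F w (u + Real.log p) := by
  have hp0 : (0 : ℝ) < p := by exact_mod_cast hp.pos
  have hpc : (p : ℂ) ≠ 0 := by exact_mod_cast hp.ne_zero
  set M := ⌊Real.exp w⌋₊ with hM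
  -- split according to `p ∣ n`
  have h1 : ∀ n : ℕ, muc P n / (n : ℂ) * F (u + Real.log n) =
      muc (insert p P) n / (n : ℂ) * F (u + Real.log n) +
        (if p ∣ n then muc P n / (n : ℂ) * F (u + Real.log n) else 0) := by
    intro n
    by_cases h : p ∣ n
    · have : muc (insert p P) n = 0 := by
        unfold muc
        rw [if_neg]
        intro h2
        exact h2 p (mem_insert_self p P) h
      rw [if_pos h, this]
      ring
    · have : muc (insert p P) n = muc P n := by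
        unfold muc
        have : (∀ q ∈ insert p P, ¬ q ∣ n) ↔ (∀ q ∈ P, ¬ q ∣ n) := by
          constructor
          · intro h2 q hq
            exact h2 q (mem_insert_of_mem hq)
          · intro h2 q hq
            rcases mem_insert.1 hq with rfl | hq
            · exact h
            · exact h2 q hq
        simp only [this]
      rw [if_neg h, this, add_zero]
  unfold GG
  rw [sum_congr rfl (fun n _ => h1 n), sum_add_distrib, sub_eq_add_neg]
  congr 1
  rw [← sum_filter]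
  -- reindex multiples of p
  have h2 : ∀ m ∈ Icc 1 M, ¬ (p * m ≤ M) → F (u + Real.log p + Real.log m) = 0 := by
    intro m hm hpm
    rw [mem_Icc] at hm
    have hm0 : (0 : ℝ) < m := by exact_mod_cast hm.1
    apply hF
    have h3 : Real.exp w < (p * m : ℕ) := by
      rw [hM] at hpm
      exact (Nat.floor_lt (Real.exp_pos w).le).1 (not_le.1 hpm)
    push_cast at h3
    have h4 : w < Real.log (p * m) := (Real.lt_log_iff_exp_lt (by positivity)).2 h3
    rw [Real.log_mul hp0.ne' hm0.ne'] at h4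
    linarith
  have h5 : ∑ n ∈ (Icc 1 M).filter (fun n => p ∣ n), muc P n / (n : ℂ) * F (u + Real.log n) =
      ∑ m ∈ (Icc 1 M).filter (fun m => p * m ≤ M), muc P (p * m) / ((p * m : ℕ) : ℂ) *
        F (u + Real.log ((p * m : ℕ) : ℝ)) := by
    symm
    apply Finset.sum_bij (fun m _ => p * m)
    · intro m hm
      rw [mem_filter, mem_Icc] at hm ⊢
      exact ⟨⟨Nat.mul_pos hp.pos hm.1.1, hm.2⟩, dvd_mul_right p m⟩
    · intro a _ b _ h
      exact Nat.eq_of_mul_eq_mul_left hp.pos h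
    · intro n hn
      rw [mem_filter, mem_Icc] at hn
      obtain ⟨⟨hn1, hn2⟩, m, rfl⟩ := hn
      refine ⟨m, ?_, rfl⟩
      rw [mem_filter, mem_Icc]
      refine ⟨⟨Nat.pos_of_mul_pos_left hn1, ?_⟩, hn2⟩
      exact le_trans (Nat.le_mul_of_pos_left m hp.pos) hn2
    · intro m _
      rfl
  have h6 : ∑ m ∈ Icc 1 M, muc (insert p P) m / (m : ℂ) * F (u + Real.log p + Real.log m) =
      ∑ m ∈ (Icc 1 M).filter (fun m => p * m ≤ M), muc (insert p P) m / (m : ℂ) *
        F (u + Real.log p + Real.log m) := by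
    rw [sum_filter]
    refine sum_congr rfl fun m hm => ?_
    split_ifs with h
    · rfl
    · rw [h2 m hm h, mul_zero]
  rw [h5, h6, mul_sum, ← sum_neg_distrib]
  refine sum_congr rfl fun m hm => ?_
  rw [mem_filter, mem_Icc] at hm
  have hm0 : (0 : ℝ) < m := by exact_mod_cast hm.1.1
  have hmc : (m : ℂ) ≠ 0 := by exact_mod_cast hm0.ne'
  have h7 : muc P (p * m) = - muc (insert p P) m := by
    unfold muc
    by_cases hpm : p ∣ m
    · have e1 : ¬ (∀ q ∈ insert p P, ¬ q ∣ m) := fun h => h p (mem_insert_self p P) hpm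
      rw [if_neg e1, mu_mul_prime_dvd hp hpm]
      simp
    · have e1 : (∀ q ∈ P, ¬ q ∣ p * m) ↔ (∀ q ∈ insert p P, ¬ q ∣ m) := by
        constructor
        · intro h q hq
          rcases mem_insert.1 hq with rfl | hq
          · exact hpm
          · exact fun hd => h q hq (hd.mul_left p)
        · intro h q hq hd
          rcases (Nat.Prime.dvd_mul (hPp q hq)).1 hd with h3 | h3
          · rw [Nat.prime_dvd_prime_iff_eq (hPp q hq) hp] at h3
            rw [h3] at hq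
            exact hpP hq
          · exact h q (mem_insert_of_mem hq) h3
      simp only [e1]
      split_ifs
      · exact mu_mul_prime hp hpm
      · simp
  rw [h7]
  push_cast
  rw [Real.log_mul hp0.ne' hm0.ne', ← add_assoc]
  field_simp

theorem muc_empty : muc ∅ = mu := by
  funext n
  unfold muc
  simp

/-- the exact factorisation -/
theorem GG_BO (P : Finset ℕ) (hP : ∀ q ∈ P, q.Prime) {F : ℝ → ℂ} {w : ℝ}
    (hF : ∀ r, w < r → F r = 0) {u : ℝ} (hu : 0 ≤ u) :
    GG mu F w u = BO P (GG (muc P) F w) u := by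
  induction P using Finset.induction_on generalizing u with
  | empty => rw [BO_empty, muc_empty]
  | insert p P hpP ih =>
    have hp := hP p (mem_insert_self p P)
    have hP' : ∀ q ∈ P, q.Prime := fun q hq => hP q (mem_insert_of_mem hq)
    rw [ih hP' hu, BO_insert hpP]
    have h1 : BO P (GG (muc P) F w) u = BO P (fun y => GG (muc (insert p P)) F w y -
        (1 / (p : ℂ)) * GG (muc (insert p P)) F w (y + Real.log p)) u := by
      unfold BO
      refine sum_congr rfl fun S hS => ?_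
      congr 1
      apply GG_step hp hP' hpP hF
      have : 0 ≤ ls S := by
        unfold ls
        refine sum_nonneg fun q hq => Real.log_nonneg ?_
        exact_mod_cast (hP' q (mem_powerset.1 hS hq)).one_lt.le
      linarith
    rw [h1, BO_sub]

/-- size of the window sums -/
theorem GG_le {P : Finset ℕ} {F : ℝ → ℂ} {w B : ℝ} (hF : Win F w B) {u : ℝ} (hu : 0 ≤ u) :
    ‖GG (muc P) F w u‖ ≤ Real.exp (-(w - u)) *
      (((Icc 1 ⌊Real.exp (w - u)⌋₊).filter (fun m => ∀ p ∈ P, ¬ p ∣ m)).card : ℕ) := by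
  classical
  unfold GG
  have h1 : ∀ n ∈ Icc 1 ⌊Real.exp w⌋₊, ‖muc P n / (n : ℂ) * F (u + Real.log n)‖ ≤
      if (n ≤ ⌊Real.exp (w - u)⌋₊ ∧ ∀ p ∈ P, ¬ p ∣ n) then Real.exp (-(w - u)) else 0 := by
    intro n hn
    rw [mem_Icc] at hn
    have hn0 : (0 : ℝ) < n := by exact_mod_cast hn.1
    by_cases h2 : ∀ p ∈ P, ¬ p ∣ n
    · by_cases h3 : n ≤ ⌊Real.exp (w - u)⌋₊
      · rw [if_pos ⟨h3, h2⟩]
        have h4 : (n : ℝ) ≤ Real.exp (w - u) := (Nat.le_floor_iff (Real.exp_pos _).le).1 h3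
        have h5 : Real.log n ≤ w - u := (Real.log_le_iff_le_exp hn0).2 h4
        have h6 := hF.le (u + Real.log n) (by linarith)
        rw [norm_mul, norm_div, Complex.norm_natCast]
        have h7 := muc_norm_le P n
        calc ‖muc P n‖ / n * ‖F (u + Real.log n)‖ ≤ 1 / n * Real.exp (u + Real.log n - w) := by
              gcongr
          _ = Real.exp (-(w - u)) := by
              rw [show u + Real.log n - w = Real.log n + (-(w - u)) by ring, Real.exp_add,
                Real.exp_log hn0]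
              field_simp
      · have h4 : w < u + Real.log n := by
          have h5 : Real.exp (w - u) < n := (Nat.floor_lt (Real.exp_pos _).le).1 (not_le.1 h3)
          have := (Real.lt_log_iff_exp_lt hn0).2 h5
          linarith
        rw [hF.zero _ h4, mul_zero, norm_zero]
        split_ifs <;> positivity
    · have : muc P n = 0 := by
        unfold muc; rw [if_neg h2]
      rw [this, zero_div, zero_mul, norm_zero]
      split_ifs <;> positivity
  refine (norm_sum_le _ _).trans ((sum_le_sum h1).trans ?_)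
  rw [← sum_filter, sum_const, nsmul_eq_mul, mul_comm]
  refine mul_le_mul_of_nonneg_left ?_ (Real.exp_pos _).le
  have : ((Icc 1 ⌊Real.exp w⌋₊).filter (fun n => n ≤ ⌊Real.exp (w - u)⌋₊ ∧ ∀ p ∈ P, ¬ p ∣ n)) ⊆
      ((Icc 1 ⌊Real.exp (w - u)⌋₊).filter (fun m => ∀ p ∈ P, ¬ p ∣ m)) := by
    intro n hn
    rw [mem_filter, mem_Icc] at hn ⊢
    exact ⟨⟨hn.1.1, hn.2.1⟩, hn.2.2⟩
  exact_mod_cast card_le_card this

theorem GG_le_one {P : Finset ℕ} {F : ℝ → ℂ} {w B : ℝ} (hF : Win F w B) {u : ℝ} (hu : 0 ≤ u) :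
    ‖GG (muc P) F w u‖ ≤ 1 := by
  refine (GG_le hF hu).trans ?_
  have h1 : (((Icc 1 ⌊Real.exp (w - u)⌋₊).filter (fun m => ∀ p ∈ P, ¬ p ∣ m)).card : ℝ) ≤
      Real.exp (w - u) := by
    have h2 : ((Icc 1 ⌊Real.exp (w - u)⌋₊).filter (fun m => ∀ p ∈ P, ¬ p ∣ m)).card ≤
        ⌊Real.exp (w - u)⌋₊ := by
      refine (card_filter_le _ _).trans ?_
      simp
    calc (((Icc 1 ⌊Real.exp (w - u)⌋₊).filter (fun m => ∀ p ∈ P, ¬ p ∣ m)).card : ℝ) ≤
        (⌊Real.exp (w - u)⌋₊ : ℝ) := by exact_mod_cast h2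
      _ ≤ _ := Nat.floor_le (Real.exp_pos _).le
  calc _ ≤ Real.exp (-(w - u)) * Real.exp (w - u) :=
        mul_le_mul_of_nonneg_left h1 (Real.exp_pos _).le
    _ = 1 := by rw [← Real.exp_add]; simp

/-- `∑_{S ⊆ P} ∏ 1/p ≤ e^W` -/
theorem sum_powerset_le (P : Finset ℕ) :
    ∑ S ∈ P.powerset, ∏ p ∈ S, (1 / (p : ℝ)) ≤ Real.exp (WP P) := by
  rw [← prod_one_add]
  unfold WP
  rw [Real.exp_sum]
  refine prod_le_prod (fun p _ => by positivity) fun p _ => ?_
  rw [add_comm]
  exact Real.add_one_le_exp _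

theorem norm_prod_neg (S : Finset ℕ) : ‖∏ p ∈ S, (-(1 / (p : ℂ)))‖ = ∏ p ∈ S, (1 / (p : ℝ)) := by
  rw [norm_prod]
  refine prod_congr rfl fun p _ => ?_
  rw [norm_neg, norm_div, norm_one, Complex.norm_natCast]

theorem BO_le (P : Finset ℕ) {F : ℝ → ℂ} {E : ℝ} (hF : ∀ x, ‖F x‖ ≤ E) (x : ℝ) :
    ‖BO P F x‖ ≤ Real.exp (WP P) * E := by
  have hE : 0 ≤ E := (norm_nonneg _).trans (hF 0)
  unfold BO
  refine (norm_sum_le _ _).trans ?_
  calc ∑ S ∈ P.powerset, ‖(∏ p ∈ S, (-(1 / (p : ℂ)))) * F (x + ls S)‖ ≤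
      ∑ S ∈ P.powerset, (∏ p ∈ S, (1 / (p : ℝ))) * E := by
        refine sum_le_sum fun S _ => ?_
        rw [norm_mul, norm_prod_neg]
        exact mul_le_mul_of_nonneg_left (hF _) (prod_nonneg fun p _ => by positivity)
    _ = (∑ S ∈ P.powerset, ∏ p ∈ S, (1 / (p : ℝ))) * E := by rw [sum_mul]
    _ ≤ _ := mul_le_mul_of_nonneg_right (sum_powerset_le P) hE

/-- the tail of the operator -/
theorem tail_le (P : Finset ℕ) (hP : ∀ p ∈ P, p.Prime) {L V : ℝ} (hL : 0 < L)
    (hPL : ∀ p ∈ P, Real.log p ≤ L) :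
    ∑ S ∈ P.powerset.filter (fun S => V < ls S), ∏ p ∈ S, (1 / (p : ℝ)) ≤
      Real.exp (-(V / L)) * Real.exp (3 * WP P) := by
  have h1 : ∀ S ∈ P.powerset.filter (fun S => V < ls S), ∏ p ∈ S, (1 / (p : ℝ)) ≤
      Real.exp (-(V / L)) * ∏ p ∈ S, (3 / (p : ℝ)) := by
    intro S hS
    rw [mem_filter, mem_powerset] at hS
    have h2 : Real.exp (ls S / L) ≤ ∏ p ∈ S, (3 : ℝ) := by
      unfold ls
      rw [sum_div, Real.exp_sum]
      refine prod_le_prod (fun p _ => (Real.exp_pos _).le) fun p hp => ?_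
      have h3 : Real.log p / L ≤ 1 := by
        rw [div_le_one hL]; exact hPL p (hS.1 hp)
      calc Real.exp (Real.log p / L) ≤ Real.exp 1 := Real.exp_le_exp.2 h3
        _ ≤ 3 := by have := Real.exp_one_lt_d9; linarith
    have h4 : 1 ≤ Real.exp (-(V / L)) * Real.exp (ls S / L) := by
      rw [← Real.exp_add]
      apply Real.one_le_exp
      have : V / L ≤ ls S / L := by gcongr; exact hS.2.le
      linarith
    have h5 : 0 ≤ ∏ p ∈ S, (1 / (p : ℝ)) := prod_nonneg fun p _ => by positivity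
    have h6 : ∏ p ∈ S, (3 / (p : ℝ)) = (∏ p ∈ S, (3 : ℝ)) * ∏ p ∈ S, (1 / (p : ℝ)) := by
      rw [← prod_mul_distrib]
      refine prod_congr rfl fun p _ => by ring
    rw [h6, ← mul_assoc]
    refine le_mul_of_one_le_left h5 (h4.trans ?_)
    exact mul_le_mul_of_nonneg_left h2 (Real.exp_pos _).le
  refine (sum_le_sum h1).trans ?_
  rw [← mul_sum]
  refine mul_le_mul_of_nonneg_left ?_ (Real.exp_pos _).le
  calc ∑ S ∈ P.powerset.filter (fun S => V < ls S), ∏ p ∈ S, (3 / (p : ℝ)) ≤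
      ∑ S ∈ P.powerset, ∏ p ∈ S, (3 / (p : ℝ)) := by
        refine sum_le_sum_of_subset_of_nonneg (filter_subset _ _) fun S _ _ =>
          prod_nonneg fun p _ => by positivity
    _ = ∏ p ∈ P, (1 + 3 / (p : ℝ)) := by rw [← prod_one_add]
    _ ≤ ∏ p ∈ P, Real.exp (3 / (p : ℝ)) := by
        refine prod_le_prod (fun p _ => by positivity) fun p _ => ?_
        rw [add_comm]
        exact Real.add_one_le_exp _
    _ = Real.exp (3 * WP P) := by
        rw [← Real.exp_sum]
        unfold WP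
        rw [mul_sum]
        congr 1
        refine sum_congr rfl fun p _ => by ring

/-- cut-off to `[0, 2V]` -/
noncomputable def cut (V : ℝ) (G : ℝ → ℂ) : ℝ → ℂ := Set.indicator (Set.Icc 0 (2 * V)) G

/-- truncation -/
theorem GG_cut (P : Finset ℕ) (hP : ∀ p ∈ P, p.Prime) {L V : ℝ} (hL : 0 < L)
    (hPL : ∀ p ∈ P, Real.log p ≤ L) {F : ℝ → ℂ} {w B : ℝ} (hF : Win F w B) {u : ℝ} (hu : 0 ≤ u)
    (huV : u ≤ V) :
    ‖GG mu F w u - BO P (cut V (GG (muc P) F w)) u‖ ≤ Real.exp (-(V / L)) * Real.exp (3 * WP P) := by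
  rw [GG_BO P hP hF.zero hu]
  unfold BO
  rw [← sum_sub_distrib]
  have h1 : ∀ S ∈ P.powerset, ‖(∏ p ∈ S, (-(1 / (p : ℂ)))) * GG (muc P) F w (u + ls S) -
      (∏ p ∈ S, (-(1 / (p : ℂ)))) * cut V (GG (muc P) F w) (u + ls S)‖ ≤
      if V < ls S then ∏ p ∈ S, (1 / (p : ℝ)) else 0 := by
    intro S hS
    have hls : 0 ≤ ls S := by
      unfold ls
      refine sum_nonneg fun q hq => Real.log_nonneg ?_
      exact_mod_cast (hP q (mem_powerset.1 hS hq)).one_lt.le
    rw [← mul_sub, norm_mul, norm_prod_neg]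
    have h5 : 0 ≤ ∏ p ∈ S, (1 / (p : ℝ)) := prod_nonneg fun p _ => by positivity
    by_cases h : V < ls S
    · rw [if_pos h]
      refine mul_le_of_le_one_right h5 ?_
      unfold cut
      by_cases h2 : u + ls S ∈ Set.Icc 0 (2 * V)
      · rw [Set.indicator_of_mem h2]; simp
      · rw [Set.indicator_of_notMem h2, sub_zero]
        exact GG_le_one hF (by linarith)
    · rw [if_neg h]
      have h2 : u + ls S ∈ Set.Icc 0 (2 * V) := ⟨by linarith, by linarith⟩
      unfold cut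
      rw [Set.indicator_of_mem h2]
      simp
  refine (norm_sum_le _ _).trans ((sum_le_sum h1).trans ?_)
  rw [← sum_filter]
  exact tail_le P hP hL hPL

/-- the Euler product -/
noncomputable def bh (P : Finset ℕ) (t : ℝ) : ℂ := ∏ p ∈ P, (1 - er t (Real.log p) / (p : ℂ))

theorem norm_one_sub_le (z : ℂ) : ‖1 - z‖ ≤ Real.exp (-z.re + ‖z‖ ^ 2 / 2) := by
  have h1 : ‖1 - z‖ ^ 2 = 1 - 2 * z.re + ‖z‖ ^ 2 := by
    rw [← Complex.normSq_eq_norm_sq, ← Complex.normSq_eq_norm_sq, Complex.normSq_apply,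
      Complex.normSq_apply]
    simp
    ring
  have h2 : ‖1 - z‖ ^ 2 ≤ Real.exp (-z.re + ‖z‖ ^ 2 / 2) ^ 2 := by
    rw [h1, ← Real.exp_nat_mul]
    have := Real.add_one_le_exp (((2 : ℕ) : ℝ) * (-z.re + ‖z‖ ^ 2 / 2))
    push_cast at this ⊢
    linarith
  exact le_of_sq_le_sq h2 (Real.exp_pos _).le

theorem sum_inv_sq_le (P : Finset ℕ) (hP : ∀ p ∈ P, p.Prime) : ∑ p ∈ P, 1 / (p : ℝ) ^ 2 ≤ 2 := by
  have h1 : P ⊆ Ioc 1 (P.sup id + 1) := by
    intro p hp
    rw [mem_Ioc]
    exact ⟨(hP p hp).one_lt, le_trans (Finset.le_sup (f := id) hp) (Nat.le_succ _)⟩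
  have h2 := sum_Ioc_inv_sq_le_sub (α := ℝ) (k := 1) (n := P.sup id + 1) (by norm_num) (by omega)
  calc ∑ p ∈ P, 1 / (p : ℝ) ^ 2 ≤ ∑ p ∈ Ioc 1 (P.sup id + 1), 1 / (p : ℝ) ^ 2 :=
        sum_le_sum_of_subset_of_nonneg h1 fun _ _ _ => by positivity
    _ = ∑ p ∈ Ioc 1 (P.sup id + 1), ((p : ℝ) ^ 2)⁻¹ := by
        refine sum_congr rfl fun p _ => by rw [one_div]
    _ ≤ _ := h2
    _ ≤ 2 := by
        have : (0 : ℝ) ≤ ((P.sup id + 1 : ℕ) : ℝ)⁻¹ := by positivity
        simp only [Nat.cast_one, inv_one]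
        linarith

theorem bh_le (P : Finset ℕ) (hP : ∀ p ∈ P, p.Prime) (t : ℝ) :
    ‖bh P t‖ ≤ Real.exp (-(ZP P t).re + 1) := by
  unfold bh ZP
  rw [norm_prod, Complex.re_sum]
  calc ∏ p ∈ P, ‖1 - er t (Real.log p) / (p : ℂ)‖ ≤
      ∏ p ∈ P, Real.exp (-(er t (Real.log p) / (p : ℂ)).re + 1 / (p : ℝ) ^ 2 / 2) := by
        refine prod_le_prod (fun p _ => norm_nonneg _) fun p _ => ?_
        refine (norm_one_sub_le _).trans (le_of_eq ?_)
        rw [norm_div, er_norm, Complex.norm_natCast]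
        ring_nf
    _ = Real.exp (-(∑ p ∈ P, (er t (Real.log p) / (p : ℂ)).re) + (∑ p ∈ P, 1 / (p : ℝ) ^ 2) / 2) := by
        rw [← Real.exp_sum, sum_add_distrib, sum_neg_distrib, sum_div]
    _ ≤ _ := by
        apply Real.exp_le_exp.2
        have := sum_inv_sq_le P hP
        linarith

theorem bh_le_exp (P : Finset ℕ) (t : ℝ) : ‖bh P t‖ ≤ Real.exp (WP P) := by
  unfold bh WP
  rw [norm_prod, Real.exp_sum]
  refine prod_le_prod (fun p _ => norm_nonneg _) fun p _ => ?_
  refine (norm_sub_le _ _).trans ?_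
  rw [norm_one, norm_div, er_norm, Complex.norm_natCast, add_comm]
  exact Real.add_one_le_exp _

end Pool.Agent.Y957.AD
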