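import Pool.Agent.Y957.AD.Beta
import Pool.Agent.H376R2.MR.Phas
import Pool.Agent.TH794.QD.Planch

/-!
Project AD: Fourier analysis on the line.
-/

set_option autoImplicit false

namespace Pool.Agent.Y957.AD

open Finset MeasureTheory Filter FourierTransform
open Pool.Agent.H376R2.MR (er cell PP mm nint WW WW_bound phas_integral_er phas_continuous_er)

/-- continuous, integrable, bounded -/
structure Nc (G : ℝ → ℂ) (M : ℝ) : Prop where
  cont : Continuous G
  int : Integrable G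
  le : ∀ x, ‖G x‖ ≤ M

theorem Nc.nonneg {G : ℝ → ℂ} {M : ℝ} (h : Nc G M) : 0 ≤ M := (norm_nonneg _).trans (h.le 0)

/-- convolution -/
noncomputable def cv (κ G : ℝ → ℂ) (x : ℝ) : ℂ := ∫ t, κ t * G (x - t)

theorem cv_eq (κ G : ℝ → ℂ) :
    cv κ G = MeasureTheory.convolution κ G (ContinuousLinearMap.mul ℂ ℂ) volume := by
  funext x
  unfold cv MeasureTheory.convolution
  rfl

theorem cv_integrand {κ G : ℝ → ℂ} {M : ℝ} (hκ : Integrable κ) (hG : Nc G M) (x : ℝ) :
    Integrable (fun t => κ t * G (x - t)) := by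
  refine hκ.mul_bdd (c := M) ?_ ?_
  · exact (hG.cont.comp (continuous_const.sub continuous_id)).aestronglyMeasurable
  · exact Eventually.of_forall fun t => hG.le _

theorem cv_le {κ G : ℝ → ℂ} {M : ℝ} (hκ : Integrable κ) (hG : Nc G M) (x : ℝ) :
    ‖cv κ G x‖ ≤ (∫ t, ‖κ t‖) * M := by
  unfold cv
  refine (norm_integral_le_integral_norm _).trans ?_
  rw [← integral_mul_const]
  refine integral_mono (cv_integrand hκ hG x).norm (hκ.norm.mul_const M) fun t => ?_
  simp only
  rw [norm_mul]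
  exact mul_le_mul_of_nonneg_left (hG.le _) (norm_nonneg _)

theorem cv_Nc {κ G : ℝ → ℂ} {M : ℝ} (hκ : Integrable κ) (hG : Nc G M) :
    Nc (cv κ G) ((∫ t, ‖κ t‖) * M) := by
  refine ⟨?_, ?_, cv_le hκ hG⟩
  · rw [cv_eq]
    refine BddAbove.continuous_convolution_right_of_integrable _ ?_ hκ hG.cont
    refine ⟨M, ?_⟩
    rintro _ ⟨x, rfl⟩
    exact hG.le x
  · rw [cv_eq]
    exact hκ.integrable_convolution _ hG.int

theorem four_cv {κ G : ℝ → ℂ} (hκ : Integrable κ) (hG : Integrable G) (ξ : ℝ) :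
    𝓕 (cv κ G) ξ = 𝓕 κ ξ * 𝓕 G ξ := by
  rw [cv_eq]
  exact Real.fourier_mul_convolution_eq hκ hG ξ

/-- linearity of the averaging operator -/
theorem KO_sub (P : Finset ℕ) (F G : ℝ → ℂ) :
    KO P (fun x => F x - G x) = fun x => KO P F x - KO P G x := by
  funext x
  unfold KO
  have : ∑ p ∈ P, (1 / (p : ℂ)) * (F (x + Real.log p) - G (x + Real.log p)) =
      (∑ p ∈ P, (1 / (p : ℂ)) * F (x + Real.log p)) - ∑ p ∈ P, (1 / (p : ℂ)) * G (x + Real.log p) := by
    rw [← sum_sub_distrib]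
    refine sum_congr rfl fun p _ => by ring
  simp only [this]
  ring

theorem KO_iter_sub (P : Finset ℕ) (J : ℕ) (F G : ℝ → ℂ) :
    (KO P)^[J] (fun x => F x - G x) = fun x => (KO P)^[J] F x - (KO P)^[J] G x := by
  induction J generalizing F G with
  | zero => rfl
  | succ J ih =>
    rw [Function.iterate_succ_apply, KO_sub, ih]
    rfl

theorem KO_cv {κ G : ℝ → ℂ} {M : ℝ} (P : Finset ℕ) (hκ : Integrable κ) (hG : Nc G M) :
    KO P (cv κ G) = cv (KO P κ) G := by
  funext x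
  unfold KO
  have h1 : ∀ p ∈ P, (1 / (p : ℂ)) * cv κ G (x + Real.log p) =
      ∫ t, (1 / (p : ℂ)) * κ (t + Real.log p) * G (x - t) := by
    intro p _
    unfold cv
    rw [← integral_const_mul]
    rw [← integral_add_right_eq_self (fun t => 1 / (p : ℂ) * (κ t * G (x + Real.log p - t))) (Real.log p)]
    congr 1
    funext t
    rw [show x + Real.log p - (t + Real.log p) = x - t by ring]
    ring
  rw [sum_congr rfl h1]
  rw [← integral_finsetSum]
  · unfold cv
    rw [← integral_const_mul, ← integral_neg]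
    congr 1
    funext t
    simp only [Finset.sum_mul, neg_mul, mul_assoc]
  · intro p _
    have h2 : Integrable (fun t => (1 / (p : ℂ)) * κ (t + Real.log p)) :=
      (hκ.comp_add_right _).const_mul _
    exact cv_integrand h2 hG x

theorem KO_integrable (P : Finset ℕ) {κ : ℝ → ℂ} (hκ : Integrable κ) : Integrable (KO P κ) := by
  unfold KO
  refine Integrable.neg ?_
  refine Integrable.const_mul ?_ _
  exact integrable_finsetSum _ fun p _ => (hκ.comp_add_right _).const_mul _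

theorem KO_iter_integrable (P : Finset ℕ) (J : ℕ) {κ : ℝ → ℂ} (hκ : Integrable κ) :
    Integrable ((KO P)^[J] κ) := by
  induction J generalizing κ with
  | zero => exact hκ
  | succ J ih =>
    rw [Function.iterate_succ_apply]
    exact ih (KO_integrable P hκ)

theorem KO_iter_cv {κ G : ℝ → ℂ} {M : ℝ} (P : Finset ℕ) (J : ℕ) (hκ : Integrable κ) (hG : Nc G M) :
    (KO P)^[J] (cv κ G) = cv ((KO P)^[J] κ) G := by
  induction J generalizing κ with
  | zero => rfl
  | succ J ih =>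
    rw [Function.iterate_succ_apply, KO_cv P hκ hG, ih (KO_integrable P hκ)]
    rfl

/-- the averaging operator is a contraction in the sup norm -/
theorem KO_norm_le (P : Finset ℕ) (hP : 0 < WP P) (F : ℝ → ℂ) (x E : ℝ)
    (h : ∀ p ∈ P, ‖F (x + Real.log p)‖ ≤ E) : ‖KO P F x‖ ≤ E := by
  unfold KO
  rw [norm_neg, norm_mul, Complex.norm_real, Real.norm_of_nonneg (by positivity)]
  have h1 : ‖∑ p ∈ P, (1 / (p : ℂ)) * F (x + Real.log p)‖ ≤ WP P * E := by
    unfold WP
    rw [sum_mul]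
    refine (norm_sum_le _ _).trans (sum_le_sum fun p hp => ?_)
    rw [norm_mul, norm_div, norm_one, Complex.norm_natCast]
    exact mul_le_mul_of_nonneg_left (h p hp) (by positivity)
  calc 1 / WP P * _ ≤ 1 / WP P * (WP P * E) := mul_le_mul_of_nonneg_left h1 (by positivity)
    _ = E := by field_simp

/-- modulated kernel -/
noncomputable def mk (κ : ℝ → ℂ) (k : ℤ) (x : ℝ) : ℂ := er k x * κ x

theorem mk_integrable {κ : ℝ → ℂ} (hκ : Integrable κ) (k : ℤ) : Integrable (mk κ k) := by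
  unfold mk
  refine hκ.bdd_mul (c := 1) ?_ ?_
  · exact (phas_continuous_er k).aestronglyMeasurable
  · exact Eventually.of_forall fun x => (er_norm _ _).le

theorem mk_norm (κ : ℝ → ℂ) (k : ℤ) (x : ℝ) : ‖mk κ k x‖ = ‖κ x‖ := by
  unfold mk; rw [norm_mul, er_norm, one_mul]

theorem four_mk (κ : ℝ → ℂ) (k : ℤ) (ξ : ℝ) : 𝓕 (mk κ k) ξ = 𝓕 κ (ξ - k / (2 * Real.pi)) := by
  rw [Real.fourier_real_eq_integral_exp_smul, Real.fourier_real_eq_integral_exp_smul]
  congr 1
  funext v
  unfold mk er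
  simp only [smul_eq_mul]
  rw [← mul_assoc, ← Complex.exp_add]
  congr 2
  have hpi : (Real.pi : ℂ) ≠ 0 := by exact_mod_cast Real.pi_ne_zero
  push_cast
  field_simp
  ring

/-- removal of the frequencies near `k / 2π` -/
noncomputable def FL (κ : ℝ → ℂ) : List ℤ → (ℝ → ℂ) → ℝ → ℂ
  | [], G => G
  | k :: l, G => fun x => FL κ l G x - cv (mk κ k) (FL κ l G) x

theorem FL_Nc {κ : ℝ → ℂ} {A : ℝ} (hκ : Integrable κ) (hA : ∫ x, ‖κ x‖ ≤ A) (l : List ℤ)
    {G : ℝ → ℂ} {M : ℝ} (hG : Nc G M) : Nc (FL κ l G) ((1 + A) ^ l.length * M) := by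
  have hA0 : 0 ≤ A := (integral_nonneg fun _ => norm_nonneg _).trans hA
  induction l with
  | nil => simpa [FL] using hG
  | cons k l ih =>
    have h1 := cv_Nc (mk_integrable hκ k) ih
    have h2 : ∫ t, ‖mk κ k t‖ ≤ A := by simpa only [mk_norm] using hA
    have hM : 0 ≤ (1 + A) ^ l.length * M := ih.nonneg
    refine ⟨ih.cont.sub h1.cont, ih.int.sub h1.int, fun x => ?_⟩
    refine (norm_sub_le _ _).trans ?_
    calc ‖FL κ l G x‖ + ‖cv (mk κ k) (FL κ l G) x‖ ≤
        (1 + A) ^ l.length * M + A * ((1 + A) ^ l.length * M) := by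
          refine add_le_add (ih.le x) ((h1.le x).trans ?_)
          exact mul_le_mul_of_nonneg_right h2 hM
      _ = _ := by rw [List.length_cons, pow_succ]; ring

theorem four_FL {κ : ℝ → ℂ} (hκ : Integrable κ) (l : List ℤ)
    {G : ℝ → ℂ} {M : ℝ} (hG : Nc G M) (ξ : ℝ) :
    𝓕 (FL κ l G) ξ = 𝓕 G ξ * (l.map (fun k : ℤ => 1 - 𝓕 κ (ξ - (k : ℝ) / (2 * Real.pi)))).prod := by
  induction l with
  | nil => simp [FL]
  | cons k l ih =>
    have h0 := FL_Nc hκ le_rfl l hG
    have h1 := cv_Nc (mk_integrable hκ k) h0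
    have h2 : 𝓕 (FL κ (k :: l) G) ξ = 𝓕 (FL κ l G) ξ - 𝓕 (cv (mk κ k) (FL κ l G)) ξ := by
      rw [Real.fourier_eq, Real.fourier_eq, Real.fourier_eq, ← integral_sub]
      · congr 1
        funext v
        have h3 : FL κ (k :: l) G v = FL κ l G v - cv (mk κ k) (FL κ l G) v := rfl
        rw [h3, smul_sub]
      · exact (Real.fourierIntegral_convergent_iff ξ).2 h0.int
      · exact (Real.fourierIntegral_convergent_iff ξ).2 h1.int
    rw [h2, four_cv (mk_integrable hκ k) h0.int, four_mk, ih]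
    rw [List.map_cons, List.prod_cons]
    ring

theorem FL_iter {κ : ℝ → ℂ} {A δ : ℝ} (hκ : Integrable κ) (hA : ∫ x, ‖κ x‖ ≤ A) (P : Finset ℕ)
    (J : ℕ) (l : List ℤ) (hδ : 0 ≤ δ) (hl : ∀ k ∈ l, ∫ x, ‖(KO P)^[J] (mk κ k) x‖ ≤ δ)
    {G : ℝ → ℂ} {M : ℝ} (hG : Nc G M) (x : ℝ) :
    ‖(KO P)^[J] G x - (KO P)^[J] (FL κ l G) x‖ ≤ l.length * (δ * ((1 + A) ^ l.length * M)) := by
  have hA0 : 0 ≤ A := (integral_nonneg fun _ => norm_nonneg _).trans hA
  have hM := hG.nonneg
  induction l with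
  | nil => simp [FL]
  | cons k l ih =>
    have ih' := ih fun k' hk' => hl k' (List.mem_cons_of_mem _ hk')
    have h0 := FL_Nc hκ hA l hG
    have h1 : (KO P)^[J] (FL κ (k :: l) G) = fun x => (KO P)^[J] (FL κ l G) x -
        cv ((KO P)^[J] (mk κ k)) (FL κ l G) x := by
      have h3 : FL κ (k :: l) G = fun x => FL κ l G x - cv (mk κ k) (FL κ l G) x := rfl
      rw [h3, KO_iter_sub, KO_iter_cv P J (mk_integrable hκ k) h0]
    rw [h1]
    have h2 : (KO P)^[J] G x - ((KO P)^[J] (FL κ l G) x - cv ((KO P)^[J] (mk κ k)) (FL κ l G) x) =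
        ((KO P)^[J] G x - (KO P)^[J] (FL κ l G) x) + cv ((KO P)^[J] (mk κ k)) (FL κ l G) x := by ring
    rw [h2]
    refine (norm_add_le _ _).trans ?_
    have h4 := cv_le (KO_iter_integrable P J (mk_integrable hκ k)) h0 x
    have h5 := hl k List.mem_cons_self
    have h6 : (∫ t, ‖(KO P)^[J] (mk κ k) t‖) * ((1 + A) ^ l.length * M) ≤
        δ * ((1 + A) ^ l.length * M) := mul_le_mul_of_nonneg_right h5 h0.nonneg
    have h7 : δ * ((1 + A) ^ l.length * M) ≤ δ * ((1 + A) ^ (k :: l).length * M) := by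
      rw [List.length_cons, pow_succ]
      have : 0 ≤ (1 + A) ^ l.length * M := h0.nonneg
      nlinarith [mul_nonneg hδ this, mul_nonneg (mul_nonneg hδ this) hA0]
    have h8 : (l.length : ℝ) * (δ * ((1 + A) ^ l.length * M)) ≤
        l.length * (δ * ((1 + A) ^ (k :: l).length * M)) :=
      mul_le_mul_of_nonneg_left h7 (Nat.cast_nonneg _)
    rw [List.length_cons] at h7 h8 ⊢
    push_cast
    linarith

end Pool.Agent.Y957.AD
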