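import Pool.Agent.Y957.AD.Four

/-!
Project AD: the smoothing kernel, the frequency cut-off kernel, the energy estimate.
-/

set_option autoImplicit false

namespace Pool.Agent.Y957.AD

open Finset MeasureTheory Filter FourierTransform
open scoped ContDiff
open Pool.Agent.H376R2.MR (er cell PP mm nint WW WW_bound phas_integral_er phas_continuous_er)

/-- forward averages -/
noncomputable def Sm (h : ℝ) (G : ℝ → ℂ) (x : ℝ) : ℂ := (1 / (h : ℂ)) * ∫ s in (0 : ℝ)..h, G (x + s)

/-- the kernel of the forward average -/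
noncomputable def rho (h : ℝ) : ℝ → ℂ := Set.indicator (Set.Icc (-h) 0) fun _ => 1 / (h : ℂ)

theorem rho_integrable (h : ℝ) : Integrable (rho h) := by
  unfold rho
  rw [integrable_indicator_iff measurableSet_Icc]
  exact integrableOn_const (by simp)

theorem Sm_eq {h : ℝ} (hh : 0 ≤ h) (G : ℝ → ℂ) : Sm h G = cv (rho h) G := by
  funext x
  unfold Sm cv rho
  have h1 : ∀ t, (Set.Icc (-h) 0).indicator (fun _ => 1 / (h : ℂ)) t * G (x - t) =
      (Set.Icc (-h) 0).indicator (fun t => 1 / (h : ℂ) * G (x - t)) t := by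
    intro t
    by_cases ht : t ∈ Set.Icc (-h) 0
    · rw [Set.indicator_of_mem ht, Set.indicator_of_mem ht]
    · rw [Set.indicator_of_notMem ht, Set.indicator_of_notMem ht, zero_mul]
  simp_rw [h1]
  rw [integral_indicator measurableSet_Icc, integral_const_mul, integral_Icc_eq_integral_Ioc,
    ← intervalIntegral.integral_of_le (by linarith)]
  congr 1
  have h2 := intervalIntegral.integral_comp_neg (a := 0) (b := h) (fun t => G (x - t))
  simp only [sub_neg_eq_add, neg_zero] at h2
  exact h2

theorem Sm_Nc {h M : ℝ} (hh : 0 < h) {G : ℝ → ℂ} (hm : Measurable G) (hi : Integrable G)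
    (hM : ∀ x, ‖G x‖ ≤ M) : Nc (Sm h G) M := by
  have hint : ∀ a b : ℝ, IntervalIntegrable G volume a b := fun a b => hi.intervalIntegrable
  refine ⟨?_, ?_, ?_⟩
  · have h1 : Sm h G = fun x => (1 / (h : ℂ)) * ((∫ s in (0 : ℝ)..(x + h), G s) - ∫ s in (0 : ℝ)..x, G s) := by
      funext x
      unfold Sm
      congr 1
      rw [intervalIntegral.integral_interval_sub_left (hint _ _) (hint _ _)]
      have h2 := intervalIntegral.integral_comp_add_left (a := 0) (b := h) G x
      rw [h2, add_zero]
    rw [h1]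
    have h3 : Continuous fun x => ∫ s in (0 : ℝ)..x, G s :=
      intervalIntegral.continuous_primitive hint 0
    exact continuous_const.mul ((h3.comp (continuous_id.add continuous_const)).sub h3)
  · rw [Sm_eq hh.le, cv_eq]
    exact (rho_integrable h).integrable_convolution _ hi
  · intro x
    unfold Sm
    have h1 := intervalIntegral.norm_integral_le_of_norm_le_const (a := 0) (b := h)
      (f := fun s => G (x + s)) (C := M) (fun s _ => hM _)
    rw [sub_zero, abs_of_pos hh] at h1
    rw [norm_mul, norm_div, norm_one, Complex.norm_real, Real.norm_of_nonneg hh.le]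
    calc 1 / h * ‖∫ s in (0 : ℝ)..h, G (x + s)‖ ≤ 1 / h * (M * h) :=
          mul_le_mul_of_nonneg_left h1 (by positivity)
      _ = M := by field_simp

theorem four_rho_le {h : ℝ} (hh : 0 < h) (ξ : ℝ) : ‖𝓕 (rho h) ξ‖ ≤ 1 ∧
    (0 < |ξ| → ‖𝓕 (rho h) ξ‖ ≤ 1 / (h * |ξ|)) := by
  have h1 : 𝓕 (rho h) ξ = (1 / (h : ℂ)) * ∫ v in (-h)..(0 : ℝ), er (-(2 * Real.pi * ξ)) v := by
    rw [Real.fourier_real_eq_integral_exp_smul]
    have h2 : ∀ v : ℝ, Complex.exp (↑(-2 * Real.pi * v * ξ) * Complex.I) • rho h v =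
        (Set.Icc (-h) 0).indicator (fun v => 1 / (h : ℂ) * er (-(2 * Real.pi * ξ)) v) v := by
      intro v
      unfold rho
      by_cases ht : v ∈ Set.Icc (-h) 0
      · rw [Set.indicator_of_mem ht, Set.indicator_of_mem ht, smul_eq_mul, mul_comm]
        congr 1
        unfold er
        congr 2
        push_cast
        ring
      · rw [Set.indicator_of_notMem ht, Set.indicator_of_notMem ht, smul_zero]
    simp_rw [h2]
    rw [integral_indicator measurableSet_Icc, integral_const_mul, integral_Icc_eq_integral_Ioc,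
      ← intervalIntegral.integral_of_le (by linarith)]
  rw [h1]
  have h3 : ‖(1 / (h : ℂ))‖ = 1 / h := by
    rw [norm_div, norm_one, Complex.norm_real, Real.norm_of_nonneg hh.le]
  rw [norm_mul, h3]
  constructor
  · have h4 := intervalIntegral.norm_integral_le_of_norm_le_const (a := -h) (b := 0)
      (f := fun v => er (-(2 * Real.pi * ξ)) v) (C := 1) (fun s _ => (er_norm _ _).le)
    have h5 : |0 - -h| = h := by rw [zero_sub, neg_neg, abs_of_pos hh]
    rw [h5] at h4
    calc 1 / h * _ ≤ 1 / h * (1 * h) := mul_le_mul_of_nonneg_left h4 (by positivity)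
      _ = 1 := by field_simp
  · intro hξ
    have h6 : -(2 * Real.pi * ξ) ≠ 0 := by
      have : ξ ≠ 0 := abs_pos.1 hξ
      have := Real.pi_ne_zero
      simp_all
    have h4 := phas_integral_er (-(2 * Real.pi * ξ)) (-h) 0 h6
    have h7 : |-(2 * Real.pi * ξ)| = 2 * Real.pi * |ξ| := by
      rw [abs_neg, abs_mul, abs_of_pos (by positivity)]
    rw [h7] at h4
    calc 1 / h * _ ≤ 1 / h * (2 / (2 * Real.pi * |ξ|)) := mul_le_mul_of_nonneg_left h4 (by positivity)
      _ ≤ 1 / h * (1 / |ξ|) := by
          refine mul_le_mul_of_nonneg_left ?_ (by positivity)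
          rw [div_le_div_iff₀ (by positivity) hξ]
          nlinarith [Real.pi_gt_three]
      _ = _ := by rw [one_div_mul_one_div]

theorem four_shift (F : ℝ → ℂ) (s ξ : ℝ) :
    𝓕 (fun x => F (x + s)) ξ = er (2 * Real.pi * ξ) s * 𝓕 F ξ := by
  rw [Real.fourier_real_eq_integral_exp_smul, Real.fourier_real_eq_integral_exp_smul]
  rw [← integral_const_mul]
  rw [← integral_add_right_eq_self (fun v : ℝ => er (2 * Real.pi * ξ) s *
    (Complex.exp (↑(-2 * Real.pi * v * ξ) * Complex.I) • F v)) s]
  congr 1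
  funext v
  unfold er
  simp only [smul_eq_mul]
  rw [← mul_assoc, ← Complex.exp_add]
  congr 2
  push_cast
  ring

theorem er_ls (t : ℝ) (S : Finset ℕ) : er t (ls S) = ∏ p ∈ S, er t (Real.log p) := by
  classical
  induction S using Finset.induction_on with
  | empty => simp [ls, er]
  | insert p S hp ih =>
    rw [prod_insert hp, ← ih, ← er_add]
    unfold ls
    rw [sum_insert hp]

theorem bh_eq (P : Finset ℕ) (t : ℝ) :
    bh P t = ∑ S ∈ P.powerset, (∏ p ∈ S, (-(1 / (p : ℂ)))) * er t (ls S) := by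
  unfold bh
  have h1 : ∀ p ∈ P, 1 - er t (Real.log p) / (p : ℂ) = 1 + (-(1 / (p : ℂ))) * er t (Real.log p) := by
    intro p _; ring
  rw [prod_congr rfl h1, prod_one_add]
  refine sum_congr rfl fun S _ => ?_
  rw [prod_mul_distrib, er_ls]

theorem BO_integrable (P : Finset ℕ) {F : ℝ → ℂ} (hF : Integrable F) : Integrable (BO P F) := by
  unfold BO
  exact integrable_finsetSum _ fun S _ => (hF.comp_add_right _).const_mul _

theorem BO_measurable (P : Finset ℕ) {F : ℝ → ℂ} (hF : Measurable F) : Measurable (BO P F) := by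
  unfold BO
  refine Finset.measurable_sum _ fun S _ => ?_
  exact (hF.comp (measurable_id.add_const _)).const_mul _

theorem four_BO (P : Finset ℕ) {F : ℝ → ℂ} (hF : Integrable F) (ξ : ℝ) :
    𝓕 (BO P F) ξ = bh P (2 * Real.pi * ξ) * 𝓕 F ξ := by
  have h1 : 𝓕 (BO P F) ξ = ∑ S ∈ P.powerset, (∏ p ∈ S, (-(1 / (p : ℂ)))) * 𝓕 (fun x => F (x + ls S)) ξ := by
    rw [Real.fourier_eq]
    unfold BO
    simp_rw [Real.fourier_eq, Finset.smul_sum]
    rw [integral_finsetSum]
    · refine sum_congr rfl fun S _ => ?_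
      rw [← integral_const_mul]
      congr 1
      funext v
      rw [mul_smul_comm]
    · intro S _
      exact (Real.fourierIntegral_convergent_iff ξ).2 ((hF.comp_add_right _).const_mul _)
  rw [h1, bh_eq, sum_mul]
  refine sum_congr rfl fun S _ => ?_
  rw [four_shift]
  ring

/-- kernels whose Fourier transform is one on `[-1,1]` -/
structure Kern (κ : ℝ → ℂ) (A B : ℝ) : Prop where
  int : Integrable κ
  cont : Continuous κ
  le : ∫ x, ‖κ x‖ ≤ A
  posB : 0 ≤ B
  var : ∀ s, 0 ≤ s → s ≤ 1 → ∫ x, ‖κ (x + s) - κ x‖ ≤ B * s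
  one : ∀ ξ, |ξ| ≤ 1 → 𝓕 κ ξ = 1
  unit : ∀ ξ, ‖1 - 𝓕 κ ξ‖ ≤ 1

theorem exists_kern : ∃ (κ : ℝ → ℂ) (A B : ℝ), Kern κ A B := by
  -- a smooth bump
  let f : ContDiffBump (0 : ℝ) := ⟨1, 2, one_pos, one_lt_two⟩
  have hg₁ : HasCompactSupport (Complex.ofRealCLM ∘ (f : ℝ → ℝ)) := f.hasCompactSupport.comp_left rfl
  have hg₂ : ContDiff ℝ ∞ (Complex.ofRealCLM ∘ (f : ℝ → ℝ)) :=
    Complex.ofRealCLM.contDiff.comp f.contDiff
  let ψ : SchwartzMap ℝ ℂ := hg₁.toSchwartzMap hg₂
  let K : SchwartzMap ℝ ℂ := 𝓕⁻ ψ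
  have hK : ∀ ξ, 𝓕 (K : ℝ → ℂ) ξ = ((f ξ : ℝ) : ℂ) := by
    intro ξ
    have h1 : 𝓕 K = ψ := by simp [K]
    have h2 : 𝓕 (K : ℝ → ℂ) ξ = (𝓕 K) ξ := rfl
    rw [h2, h1]
    rfl
  let K' : SchwartzMap ℝ ℂ := SchwartzMap.derivCLM ℝ ℂ K
  have hd : ∀ x, HasDerivAt (K : ℝ → ℂ) (K' x) x := by
    intro x
    have := K.differentiable x
    exact this.hasDerivAt
  refine ⟨K, ∫ x, ‖K x‖, ∫ x, ‖K' x‖, K.integrable, K.continuous, le_rfl,
    integral_nonneg fun _ => norm_nonneg _, ?_, ?_, ?_⟩
  · intro s hs _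
    have h1 : ∀ x, ‖K (x + s) - K x‖ ≤ ∫ t in (0 : ℝ)..s, ‖K' (x + t)‖ := by
      intro x
      have h2 : ∫ t in (0 : ℝ)..s, K' (x + t) = K (x + s) - K x := by
        have h3 := intervalIntegral.integral_eq_sub_of_hasDerivAt (a := 0) (b := s)
          (f := fun t => K (x + t)) (f' := fun t => K' (x + t)) (fun t _ => by
            have := (hd (x + t)).comp_const_add x t
            simpa using this) ((K'.continuous.comp (continuous_const.add continuous_id)).intervalIntegrable _ _)
        rw [h3, add_zero]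
      rw [← h2]
      exact intervalIntegral.norm_integral_le_integral_norm hs
    have hint : Integrable (fun z : ℝ × ℝ => ‖K' (z.1 + z.2)‖)
        ((volume : Measure ℝ).prod (volume.restrict (Set.Ioc 0 s))) := by
      have h3 : Integrable (fun z : ℝ × ℝ => ‖K' z.1‖) ((volume : Measure ℝ).prod (volume.restrict (Set.Ioc 0 s))) := by
        have := (K'.integrable (μ := volume)).norm.mul_prod (μ := volume) (ν := volume.restrict (Set.Ioc 0 s))
          (g := fun _ => (1 : ℝ)) (integrable_const _)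
        simpa using this
      rw [integrable_prod_iff']
      · constructor
        · refine Eventually.of_forall fun t => ?_
          exact (K'.integrable.comp_add_right t).norm
        · have h4 : ∀ t : ℝ, ∫ x, ‖‖K' (x + t)‖‖ = ∫ x, ‖K' x‖ := by
            intro t
            simp only [norm_norm]
            exact integral_add_right_eq_self (fun x => ‖K' x‖) t
          simp only
          simp_rw [h4]
          exact integrable_const _
      · exact (K'.continuous.norm.comp (continuous_fst.add continuous_snd)).aestronglyMeasurable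
    calc ∫ x, ‖K (x + s) - K x‖ ≤ ∫ x, ∫ t in (0 : ℝ)..s, ‖K' (x + t)‖ := by
          refine integral_mono ?_ ?_ h1
          · exact ((K.integrable.comp_add_right s).sub K.integrable).norm
          · have := hint.integral_prod_left
            simpa only [intervalIntegral.integral_of_le hs] using this
      _ = ∫ t in (0 : ℝ)..s, ∫ x, ‖K' (x + t)‖ := by
          simp only [intervalIntegral.integral_of_le hs]
          rw [integral_integral_swap hint]
      _ = ∫ t in (0 : ℝ)..s, ∫ x, ‖K' x‖ := by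
          congr 1
          funext t
          exact integral_add_right_eq_self (fun x => ‖K' x‖) t
      _ = _ := by
          rw [intervalIntegral.integral_const, sub_zero, smul_eq_mul, mul_comm]
  · intro ξ hξ
    rw [hK, f.one_of_mem_closedBall]
    · simp
    · simpa using hξ
  · intro ξ
    rw [hK]
    have h1 : (1 : ℂ) - ((f ξ : ℝ) : ℂ) = ((1 - f ξ : ℝ) : ℂ) := by push_cast; ring
    rw [h1, Complex.norm_real, Real.norm_eq_abs, abs_le]
    constructor
    · have := f.le_one (x := ξ); linarith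
    · have := f.nonneg (x := ξ); linarith

end Pool.Agent.Y957.AD
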