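import Pool.Agent.Y957.AD.Four2

/-!
Project AD: energy estimates.
-/

set_option autoImplicit false

namespace Pool.Agent.Y957.AD

open Finset MeasureTheory Filter FourierTransform
open scoped ENNReal
open Pool.Agent.H376R2.MR (er cell PP mm nint WW WW_bound phas_integral_er phas_continuous_er)

theorem memLp_of_bdd {G : ℝ → ℂ} {M : ℝ} (hi : Integrable G) (hM : ∀ x, ‖G x‖ ≤ M) : MemLp G 2 := by
  have hm := hi.aestronglyMeasurable
  rw [memLp_two_iff_integrable_sq_norm hm]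
  have h1 : Integrable (fun x => ‖G x‖ * ‖G x‖) := by
    refine hi.norm.mul_bdd (c := M) hm.norm ?_
    exact Eventually.of_forall fun x => by simpa using hM x
  simpa only [sq] using h1

/-- energy after removal of the bad frequencies -/
theorem energy {κ : ℝ → ℂ} {A B : ℝ} (hκ : Kern κ A B) (P : Finset ℕ) {Λ : ℝ → ℂ} {E L : ℝ}
    (hm : Measurable Λ) (hi : Integrable Λ) (hE : ∀ x, ‖Λ x‖ ≤ E) (hL : 0 ≤ L)
    (hs : ∀ x, x ∉ Set.Icc 0 L → Λ x = 0) {h T Ξ : ℝ} (hh : 0 < h) (hT : 0 < T)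
    (hΞ : Real.exp (WP P) / (h * T) ≤ Ξ) (l : List ℤ)
    (hl : ∀ ξ : ℝ, |ξ| ≤ T → (∃ k ∈ l, |ξ - (k : ℝ) / (2 * Real.pi)| ≤ 1) ∨
      ‖bh P (2 * Real.pi * ξ)‖ ≤ Ξ) :
    ∫⁻ x, ‖FL κ l (Sm h (BO P Λ)) x‖ₑ ^ 2 ≤ ENNReal.ofReal (Ξ ^ 2 * (E ^ 2 * L)) := by
  have hE0 : 0 ≤ E := (norm_nonneg _).trans (hE 0)
  have hΞ0 : 0 ≤ Ξ := le_trans (by positivity) hΞ
  have hBi : Integrable (BO P Λ) := BO_integrable P hi
  have hG : Nc (Sm h (BO P Λ)) (Real.exp (WP P) * E) :=
    Sm_Nc hh (BO_measurable P hm) hBi (BO_le P hE)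
  have hF := FL_Nc hκ.int hκ.le l hG
  rw [← Pool.Agent.TH794.QD.plancherel _ hF.int (memLp_of_bdd hF.int hF.le)]
  have hpt : ∀ ξ, ‖𝓕 (FL κ l (Sm h (BO P Λ))) ξ‖ₑ ^ 2 ≤ ENNReal.ofReal (Ξ ^ 2) * ‖𝓕 Λ ξ‖ₑ ^ 2 := by
    intro ξ
    have h1 : ‖𝓕 (FL κ l (Sm h (BO P Λ))) ξ‖ ≤ Ξ * ‖𝓕 Λ ξ‖ := by
      rw [four_FL hκ.int l hG, Sm_eq hh.le, four_cv (rho_integrable h) hBi, four_BO P hi]
      have hprod : ‖(l.map (fun k : ℤ => 1 - 𝓕 κ (ξ - (k : ℝ) / (2 * Real.pi)))).prod‖ ≤ 1 := by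
        clear hl hF
        induction l with
        | nil => simp
        | cons k l ih =>
          rw [List.map_cons, List.prod_cons, norm_mul]
          exact mul_le_one₀ (hκ.unit _) (norm_nonneg _) ih
      rw [norm_mul, norm_mul, norm_mul]
      have h2 := four_rho_le hh ξ
      by_cases hξ : |ξ| ≤ T
      · rcases hl ξ hξ with ⟨k, hk, hk2⟩ | h3
        · have h4 : (l.map (fun k : ℤ => 1 - 𝓕 κ (ξ - (k : ℝ) / (2 * Real.pi)))).prod = 0 := by
            rw [List.prod_eq_zero_iff]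
            rw [List.mem_map]
            exact ⟨k, hk, by rw [hκ.one _ hk2, sub_self]⟩
          rw [h4, norm_zero, mul_zero]
          positivity
        · calc _ ≤ 1 * (Ξ * ‖𝓕 Λ ξ‖) * 1 := by
                gcongr
                exact h2.1
            _ = _ := by ring
      · have hξ' : T < |ξ| := not_le.1 hξ
        have h5 := h2.2 (by linarith)
        have h6 : 1 / (h * |ξ|) ≤ 1 / (h * T) := by gcongr
        calc _ ≤ 1 / (h * T) * (Real.exp (WP P) * ‖𝓕 Λ ξ‖) * 1 := by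
              gcongr
              · exact h5.trans h6
              · exact bh_le_exp P _
          _ = Real.exp (WP P) / (h * T) * ‖𝓕 Λ ξ‖ := by ring
          _ ≤ _ := by gcongr
    calc ‖𝓕 (FL κ l (Sm h (BO P Λ))) ξ‖ₑ ^ 2 ≤ (ENNReal.ofReal (Ξ * ‖𝓕 Λ ξ‖)) ^ 2 := by
          gcongr
          rw [← ofReal_norm]
          exact ENNReal.ofReal_le_ofReal h1
      _ = _ := by
          rw [ENNReal.ofReal_mul hΞ0, mul_pow, ENNReal.ofReal_pow hΞ0, ofReal_norm]
  calc ∫⁻ ξ, ‖𝓕 (FL κ l (Sm h (BO P Λ))) ξ‖ₑ ^ 2 ≤ ∫⁻ ξ, ENNReal.ofReal (Ξ ^ 2) * ‖𝓕 Λ ξ‖ₑ ^ 2 :=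
        lintegral_mono hpt
    _ = ENNReal.ofReal (Ξ ^ 2) * ∫⁻ ξ, ‖𝓕 Λ ξ‖ₑ ^ 2 := by
        rw [lintegral_const_mul' _ _ ENNReal.ofReal_ne_top]
    _ = ENNReal.ofReal (Ξ ^ 2) * ∫⁻ x, ‖Λ x‖ₑ ^ 2 := by
        rw [Pool.Agent.TH794.QD.plancherel _ hi (memLp_of_bdd hi hE)]
    _ ≤ ENNReal.ofReal (Ξ ^ 2) * ENNReal.ofReal (E ^ 2 * L) := by
        gcongr
        calc ∫⁻ x, ‖Λ x‖ₑ ^ 2 ≤ ∫⁻ x, (Set.Icc 0 L).indicator (fun _ => ENNReal.ofReal (E ^ 2)) x := by
              refine lintegral_mono fun x => ?_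
              by_cases hx : x ∈ Set.Icc 0 L
              · rw [Set.indicator_of_mem hx, ENNReal.ofReal_pow hE0]
                gcongr
                rw [← ofReal_norm]
                exact ENNReal.ofReal_le_ofReal (hE x)
              · rw [Set.indicator_of_notMem hx, hs x hx]
                simp
          _ = ENNReal.ofReal (E ^ 2 * L) := by
              rw [lintegral_indicator measurableSet_Icc, setLIntegral_const, Real.volume_Icc, sub_zero,
                ENNReal.ofReal_mul (by positivity)]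
    _ = _ := by rw [← ENNReal.ofReal_mul (by positivity)]

/-- pointwise convexity -/
theorem KO_sq (P : Finset ℕ) (hP : 0 < WP P) (F : ℝ → ℂ) (x : ℝ) :
    ‖KO P F x‖ₑ ^ 2 ≤ ∑ p ∈ P, ENNReal.ofReal (1 / WP P * (1 / (p : ℝ))) * ‖F (x + Real.log p)‖ₑ ^ 2 := by
  have h1 : ‖KO P F x‖ ^ 2 ≤ ∑ p ∈ P, (1 / WP P * (1 / (p : ℝ))) * ‖F (x + Real.log p)‖ ^ 2 := by
    have h2 : ‖KO P F x‖ ≤ ∑ p ∈ P, (1 / WP P * (1 / (p : ℝ))) * ‖F (x + Real.log p)‖ := by
      unfold KO
      rw [norm_neg, norm_mul, Complex.norm_real, Real.norm_of_nonneg (by positivity)]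
      calc 1 / WP P * ‖∑ p ∈ P, (1 / (p : ℂ)) * F (x + Real.log p)‖ ≤
          1 / WP P * ∑ p ∈ P, (1 / (p : ℝ)) * ‖F (x + Real.log p)‖ := by
            refine mul_le_mul_of_nonneg_left ?_ (by positivity)
            refine (norm_sum_le _ _).trans (sum_le_sum fun p _ => ?_)
            rw [norm_mul, norm_div, norm_one, Complex.norm_natCast]
        _ = _ := by rw [mul_sum]; exact sum_congr rfl fun p _ => by ring
    have h3 : ∑ p ∈ P, (1 / WP P * (1 / (p : ℝ))) = 1 := by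
      rw [← mul_sum]
      change 1 / WP P * WP P = 1
      field_simp
    calc ‖KO P F x‖ ^ 2 ≤ (∑ p ∈ P, (1 / WP P * (1 / (p : ℝ))) * ‖F (x + Real.log p)‖) ^ 2 := by
          gcongr
      _ ≤ ∑ p ∈ P, (1 / WP P * (1 / (p : ℝ))) * ‖F (x + Real.log p)‖ ^ 2 := by
          exact Real.pow_arith_mean_le_arith_mean_pow P _ _ (fun p _ => by positivity) h3
            (fun p _ => norm_nonneg _) 2
  calc ‖KO P F x‖ₑ ^ 2 = ENNReal.ofReal (‖KO P F x‖ ^ 2) := by
        rw [ENNReal.ofReal_pow (norm_nonneg _), ofReal_norm]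
    _ ≤ ENNReal.ofReal (∑ p ∈ P, (1 / WP P * (1 / (p : ℝ))) * ‖F (x + Real.log p)‖ ^ 2) :=
        ENNReal.ofReal_le_ofReal h1
    _ = _ := by
        rw [ENNReal.ofReal_sum_of_nonneg (fun p _ => by positivity)]
        refine sum_congr rfl fun p _ => ?_
        rw [ENNReal.ofReal_mul (by positivity), ENNReal.ofReal_pow (norm_nonneg _), ofReal_norm]

theorem sum_weights (P : Finset ℕ) (hP : 0 < WP P) :
    ∑ p ∈ P, ENNReal.ofReal (1 / WP P * (1 / (p : ℝ))) = 1 := by
  rw [← ENNReal.ofReal_sum_of_nonneg (fun p _ => by positivity), ← mul_sum]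
  change ENNReal.ofReal (1 / WP P * WP P) = 1
  rw [one_div_mul_cancel hP.ne', ENNReal.ofReal_one]

theorem KO_continuous (P : Finset ℕ) {F : ℝ → ℂ} (hF : Continuous F) : Continuous (KO P F) := by
  unfold KO
  refine Continuous.neg (continuous_const.mul (continuous_finset_sum _ fun p _ => ?_))
  exact continuous_const.mul (hF.comp (continuous_id.add continuous_const))

theorem KO_iter_continuous (P : Finset ℕ) (J : ℕ) {F : ℝ → ℂ} (hF : Continuous F) :
    Continuous ((KO P)^[J] F) := by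
  induction J generalizing F with
  | zero => exact hF
  | succ J ih =>
    rw [Function.iterate_succ_apply]
    exact ih (KO_continuous P hF)

/-- contraction in `L²` -/
theorem KO_energy (P : Finset ℕ) (hP : 0 < WP P) {F : ℝ → ℂ} (hF : Continuous F) :
    ∫⁻ x, ‖KO P F x‖ₑ ^ 2 ≤ ∫⁻ x, ‖F x‖ₑ ^ 2 := by
  calc ∫⁻ x, ‖KO P F x‖ₑ ^ 2 ≤
      ∫⁻ x, ∑ p ∈ P, ENNReal.ofReal (1 / WP P * (1 / (p : ℝ))) * ‖F (x + Real.log p)‖ₑ ^ 2 :=
        lintegral_mono fun x => KO_sq P hP F x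
    _ = ∑ p ∈ P, ENNReal.ofReal (1 / WP P * (1 / (p : ℝ))) * ∫⁻ x, ‖F x‖ₑ ^ 2 := by
        rw [lintegral_finsetSum]
        · refine sum_congr rfl fun p _ => ?_
          rw [lintegral_const_mul' _ _ ENNReal.ofReal_ne_top]
          congr 1
          exact lintegral_add_right_eq_self (fun x => ‖F x‖ₑ ^ 2) _
        · intro p _
          have : Continuous fun x => F (x + Real.log p) := hF.comp (continuous_id.add continuous_const)
          exact (this.enorm.measurable.pow_const 2).const_mul _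
    _ = _ := by rw [← Finset.sum_mul, sum_weights P hP, one_mul]

theorem KO_iter_energy (P : Finset ℕ) (hP : 0 < WP P) (J : ℕ) {F : ℝ → ℂ} (hF : Continuous F) :
    ∫⁻ x, ‖(KO P)^[J] F x‖ₑ ^ 2 ≤ ∫⁻ x, ‖F x‖ₑ ^ 2 := by
  induction J generalizing F with
  | zero => exact le_rfl
  | succ J ih =>
    rw [Function.iterate_succ_apply]
    exact (ih (KO_continuous P hF)).trans (KO_energy P hP hF)

/-- localisation to a window of length one -/
theorem KO_window (P : Finset ℕ) (hP : 0 < WP P) {F : ℝ → ℂ} (hF : Continuous F) {S : ℝ}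
    (hS0 : 0 ≤ S)
    (hS : ∀ x : ℝ, ∑ p ∈ P.filter (fun p : ℕ => x - 1 ≤ Real.log p ∧ Real.log p ≤ x), 1 / (p : ℝ) ≤ S) :
    ∫⁻ x in Set.Icc (0 : ℝ) 1, ‖KO P F x‖ₑ ^ 2 ≤ ENNReal.ofReal (S / WP P) * ∫⁻ x, ‖F x‖ₑ ^ 2 := by
  have hFm : Measurable fun x => ‖F x‖ₑ ^ 2 := hF.enorm.measurable.pow_const 2
  calc ∫⁻ x in Set.Icc (0 : ℝ) 1, ‖KO P F x‖ₑ ^ 2 ≤
      ∫⁻ x in Set.Icc (0 : ℝ) 1, ∑ p ∈ P, ENNReal.ofReal (1 / WP P * (1 / (p : ℝ))) *
        ‖F (x + Real.log p)‖ₑ ^ 2 := lintegral_mono fun x => KO_sq P hP F x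
    _ = ∑ p ∈ P, ENNReal.ofReal (1 / WP P * (1 / (p : ℝ))) *
        ∫⁻ x in Set.Icc (0 : ℝ) 1, ‖F (x + Real.log p)‖ₑ ^ 2 := by
        rw [lintegral_finsetSum]
        · refine sum_congr rfl fun p _ => ?_
          rw [lintegral_const_mul' _ _ ENNReal.ofReal_ne_top]
        · intro p _
          have : Continuous fun x => F (x + Real.log p) := hF.comp (continuous_id.add continuous_const)
          exact (this.enorm.measurable.pow_const 2).const_mul _
    _ = ∑ p ∈ P, ENNReal.ofReal (1 / WP P * (1 / (p : ℝ))) *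
        ∫⁻ x, (Set.Icc (Real.log p) (Real.log p + 1)).indicator (fun x => ‖F x‖ₑ ^ 2) x := by
        refine sum_congr rfl fun p _ => ?_
        congr 1
        rw [← lintegral_indicator measurableSet_Icc]
        rw [← lintegral_add_right_eq_self (fun x => (Set.Icc (Real.log p) (Real.log p + 1)).indicator
          (fun x => ‖F x‖ₑ ^ 2) x) (Real.log p)]
        refine lintegral_congr fun x => ?_
        by_cases hx : x ∈ Set.Icc (0 : ℝ) 1
        · rw [Set.indicator_of_mem hx, Set.indicator_of_mem]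
          exact ⟨by linarith [hx.1], by linarith [hx.2]⟩
        · rw [Set.indicator_of_notMem hx, Set.indicator_of_notMem]
          intro h2
          exact hx ⟨by linarith [h2.1], by linarith [h2.2]⟩
    _ = ∫⁻ x, ∑ p ∈ P, ENNReal.ofReal (1 / WP P * (1 / (p : ℝ))) *
        (Set.Icc (Real.log p) (Real.log p + 1)).indicator (fun x => ‖F x‖ₑ ^ 2) x := by
        rw [lintegral_finsetSum]
        · refine sum_congr rfl fun p _ => ?_
          rw [lintegral_const_mul' _ _ ENNReal.ofReal_ne_top]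
        · intro p _
          exact (hFm.indicator measurableSet_Icc).const_mul _
    _ ≤ ∫⁻ x, ENNReal.ofReal (S / WP P) * ‖F x‖ₑ ^ 2 := by
        refine lintegral_mono fun x => ?_
        have h1 : ∀ p ∈ P, ENNReal.ofReal (1 / WP P * (1 / (p : ℝ))) *
            (Set.Icc (Real.log p) (Real.log p + 1)).indicator (fun x => ‖F x‖ₑ ^ 2) x =
            (if x - 1 ≤ Real.log p ∧ Real.log p ≤ x then ENNReal.ofReal (1 / WP P * (1 / (p : ℝ))) else 0) *
              ‖F x‖ₑ ^ 2 := by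
          intro p _
          by_cases hx : x ∈ Set.Icc (Real.log p) (Real.log p + 1)
          · rw [Set.indicator_of_mem hx, if_pos ⟨by linarith [hx.2], hx.1⟩]
          · rw [Set.indicator_of_notMem hx, if_neg, mul_zero, zero_mul]
            intro h2
            exact hx ⟨h2.2, by linarith [h2.1]⟩
        simp only
        rw [sum_congr rfl h1, ← Finset.sum_mul]
        gcongr
        rw [← sum_filter, ← ENNReal.ofReal_sum_of_nonneg (fun p _ => by positivity), ← mul_sum]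
        apply ENNReal.ofReal_le_ofReal
        calc 1 / WP P * _ ≤ 1 / WP P * S := mul_le_mul_of_nonneg_left (hS x) (by positivity)
          _ = S / WP P := by ring
    _ = _ := by rw [lintegral_const_mul _ hFm]

/-- forward averages commute with the averaging operator -/
theorem KO_Sm (P : Finset ℕ) (h : ℝ) {F : ℝ → ℂ} (hF : Integrable F) :
    KO P (Sm h F) = Sm h (KO P F) := by
  funext x
  unfold KO Sm
  rw [intervalIntegral.integral_neg, intervalIntegral.integral_const_mul,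
    intervalIntegral.integral_finset_sum]
  · rw [mul_sum, mul_sum, mul_neg, mul_sum]
    congr 1
    refine sum_congr rfl fun p _ => ?_
    rw [intervalIntegral.integral_const_mul]
    have : ∀ s, x + s + Real.log p = x + Real.log p + s := fun s => by ring
    simp only [this]
    ring
  · intro p _
    have h1 : Integrable (fun s => 1 / (p : ℂ) * F (x + s + Real.log p)) := by
      have h2 : Integrable (fun s => F (s + (x + Real.log p))) := hF.comp_add_right _
      have : ∀ s, F (x + s + Real.log p) = F (s + (x + Real.log p)) := fun s => by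
        congr 1; ring
      simp only [this]
      exact h2.const_mul _
    exact h1.intervalIntegrable

theorem KO_iter_Sm (P : Finset ℕ) (J : ℕ) (h : ℝ) {F : ℝ → ℂ} (hF : Integrable F) :
    (KO P)^[J] (Sm h F) = Sm h ((KO P)^[J] F) := by
  induction J generalizing F with
  | zero => rfl
  | succ J ih =>
    rw [Function.iterate_succ_apply, KO_Sm P h hF, ih (KO_integrable P hF)]
    rfl

/-- local contraction in the sup norm -/
theorem KO_iter_local (P : Finset ℕ) (hP : 0 < WP P) {L V : ℝ}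
    (hPL : ∀ p ∈ P, 0 ≤ Real.log p ∧ Real.log p ≤ L) {F : ℝ → ℂ} {E : ℝ}
    (hF : ∀ x, 0 ≤ x → x ≤ V → ‖F x‖ ≤ E) (J : ℕ) :
    ∀ x, 0 ≤ x → x + J * L ≤ V → ‖(KO P)^[J] F x‖ ≤ E := by
  induction J with
  | zero => intro x hx hxV; exact hF x hx (by simpa using hxV)
  | succ J ih =>
    intro x hx hxV
    rw [Function.iterate_succ_apply']
    refine KO_norm_le P hP _ x E fun p hp => ?_
    have h1 := hPL p hp
    apply ih
    · linarith
    · push_cast at hxV
      linarith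

/-- comparison with the iterates -/
theorem KO_iter_diff (P : Finset ℕ) (hP : 0 < WP P) {L V : ℝ} (hL : 0 ≤ L)
    (hPL : ∀ p ∈ P, 0 ≤ Real.log p ∧ Real.log p ≤ L) {F : ℝ → ℂ} {E : ℝ}
    (hF : ∀ x, 0 ≤ x → x ≤ V → ‖F x - KO P F x‖ ≤ E) (J : ℕ) :
    ∀ x, 0 ≤ x → x + J * L ≤ V → ‖F x - (KO P)^[J] F x‖ ≤ J * E := by
  induction J with
  | zero => intro x hx hxV; simp
  | succ J ih =>
    intro x hx hxV
    push_cast at hxV
    have h1 : F x - (KO P)^[J + 1] F x = (F x - (KO P)^[J] F x) +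
        (KO P)^[J] (fun y => F y - KO P F y) x := by
      rw [KO_iter_sub, Function.iterate_succ_apply]
      ring
    rw [h1]
    refine (norm_add_le _ _).trans ?_
    have h2 := ih x hx (by linarith)
    have h3 := KO_iter_local P hP hPL hF J x hx (by linarith)
    push_cast
    linarith

end Pool.Agent.Y957.AD
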