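import Pool.Agent.Y957.AD.Spec

/-!
Project AD: consequences of the almost everywhere statement `S_AE`.
-/

set_option autoImplicit false

namespace Pool.Agent.Y957.AD

open Finset MeasureTheory Filter

universe u

/-- (11) orbits of continuous flows, for almost every time-`α` map, all continuous functions simultaneously -/
def S_FLOW : Prop := ∀ (X : Type u) [MetricSpace X] [CompactSpace X] (φ : Flow ℝ X) (x : X),
  ∀ᵐ α : ℝ, ∀ f : C(X, ℂ), AlmostScales (fun t => f (φ t x)) α ∧ LogAv (fun t => f (φ t x)) α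

/-- (12) arbitrary bounded sequences along `⌊α n ^ c⌋` -/
def S_SEQ : Prop := ∀ (a : ℕ → ℂ) (M : ℝ), (∀ n, ‖a n‖ ≤ M) → ∀ c : ℝ, 0 < c →
  ∀ᵐ α ∂(volume.restrict (Set.Ioi (0 : ℝ))),
    Tendsto (fun X : ℕ => (1 / Real.log X) * ∑ N ∈ Icc 1 X,
      ‖(1 / (N : ℂ)) * ∑ n ∈ Icc 1 N, mu n * a ⌊α * (n : ℝ) ^ c⌋₊‖ / N) atTop (nhds 0) ∧
    Tendsto (fun X : ℕ => (1 / (Real.log X : ℂ)) * ∑ n ∈ Icc 1 X, mu n * a ⌊α * (n : ℝ) ^ c⌋₊ / n)
      atTop (nhds 0)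

end Pool.Agent.Y957.AD
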